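import Pool.Agent.Helper606_CZ.K11

/-!
# Colmez's class functions for CM fields with distinct conjugate quadratic extensions

`K` is a CM field, Galois over `ℚ`, `c` its complex conjugation.  For a number field `E` the set `H_E` of
its embeddings is the set of its embeddings into `K` (if `K` contains the conjugates of `E`), and
`a⁰_{E,ψ,Φ}` is the class function on `G = Gal(K/ℚ)` of the question, for a CM type `Φ` of `E` and
`ψ ∈ H_E`.  The Faltings height of an abelian variety of CM type `(E, Φ)` belongs to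
`A_Φ = ∑_{ψ ∈ Φ} a⁰_{E,ψ,Φ}`.

By Colmez's theorem both sides of the formula in question are values at `a⁰_{E,ψ,Φ}` of `ℚ`-linear
functions.  The formula is known for `1` and for the sums of the `A_Φ` over all CM types `Φ` of a field
(the averaged formula).  Let `avgSpan` be the space spanned by these functions.

Let `E` be a quadratic extension of a totally real field `F` and `F^c` the compositum of the
conjugates of `F`.  Every embedding `ψ` of `E` gives an extension `ψ(E) F^c` of `F^c`.  We show that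
all `a⁰_{E,ψ,Φ}` are in `avgSpan`, unless `F` has a proper subfield `L` such that
`ψ(E) F^c = φ(E) F^c` for all `ψ`, `φ` which agree on `L`.
-/

set_option autoImplicit false

open NumberField

namespace Pool.Agent.Results.MP_a2beea_nt.ConjugateExtensions

variable {E K : Type} [Field E] [NumberField E] [Field K] [NumberField K]

/-- The complex conjugation of the CM field `K`, an element of `Gal(K/ℚ)`. -/
noncomputable def conjugation (K : Type) [Field K] [NumberField K] [IsCMField K] : K ≃ₐ[ℚ] K :=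
  (IsCMField.complexConj K).restrictScalars ℚ

/-- The action `g ψ = g ∘ ψ` of `Gal(K/ℚ)` on the set of the embeddings of a field into `K`. -/
def act {L : Type} [Field L] [Algebra ℚ L] (g : K ≃ₐ[ℚ] K) (ψ : L →ₐ[ℚ] K) : L →ₐ[ℚ] K :=
  (g : K →ₐ[ℚ] K).comp ψ

/-- `Φ` is a CM type of `E`: `H_E` is the disjoint union of `Φ` and `c Φ`. -/
def IsCMType [IsCMField K] (Φ : Finset (E →ₐ[ℚ] K)) : Prop :=
  ∀ ψ : E →ₐ[ℚ] K, act (conjugation K) ψ ∈ Φ ↔ ψ ∉ Φ

/-- Colmez's function `a⁰_{E,ψ,Φ}(g) = #{η : η⁻¹ g η ψ ∈ Φ} / #Gal(K/ℚ)`. -/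
noncomputable def a0 (ψ : E →ₐ[ℚ] K) (Φ : Finset (E →ₐ[ℚ] K)) (g : K ≃ₐ[ℚ] K) : ℚ :=
  (Nat.card {η : K ≃ₐ[ℚ] K // act (η⁻¹ * g * η) ψ ∈ Φ} : ℚ) / Nat.card (K ≃ₐ[ℚ] K)

/-- `A_Φ`, the sum of Colmez's functions over the elements of the CM type. -/
noncomputable def heightFn (Φ : Finset (E →ₐ[ℚ] K)) (g : K ≃ₐ[ℚ] K) : ℚ := ∑ ψ ∈ Φ, a0 ψ Φ g

open scoped Classical in
/-- The sum of the `A_Φ` over all CM types of `E`. -/
noncomputable def totalFn (E K : Type) [Field E] [NumberField E] [Field K] [NumberField K]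
    [IsCMField K] (g : K ≃ₐ[ℚ] K) : ℚ :=
  ∑ Φ ∈ Finset.univ.filter (fun Φ : Finset (E →ₐ[ℚ] K) => IsCMType Φ), heightFn Φ g

/-- The span of `1` and the sums of the `A_Φ` over all CM types of a field. -/
noncomputable def avgSpan (K : Type) [Field K] [NumberField K] [IsCMField K] :
    Submodule ℚ ((K ≃ₐ[ℚ] K) → ℚ) :=
  Submodule.span ℚ ({fun _ => 1} ∪ {F | ∃ (E : Type) (_ : Field E) (_ : NumberField E),
    F = totalFn E K})

/-- The compositum in `K` of the images of a field under all its embeddings into `K`. -/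
noncomputable def conjugates (L K : Type) [Field L] [Algebra ℚ L] [Field K] [NumberField K] :
    IntermediateField ℚ K := ⨆ a : L →ₐ[ℚ] K, a.fieldRange

lemma isHalf [IsCMField K] {Φ : Finset (E →ₐ[ℚ] K)} (hΦ : IsCMType Φ) :
    Pool.Agent.Q11.CZ.IsHalf (Pool.Agent.Q11.CZ.conj K) Φ := hΦ

open scoped Classical in
lemma a0_eq (ψ : E →ₐ[ℚ] K) (Φ : Finset (E →ₐ[ℚ] K)) : a0 ψ Φ = Pool.Agent.Q11.CZ.a0 ψ Φ := by
  funext g
  unfold a0 Pool.Agent.Q11.CZ.a0
  rw [Nat.card_eq_fintype_card, Nat.card_eq_fintype_card, Fintype.card_subtype]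
  rfl

lemma heightFn_eq (Φ : Finset (E →ₐ[ℚ] K)) : heightFn Φ = Pool.Agent.Q11.CZ.T Φ := by
  funext g
  unfold heightFn Pool.Agent.Q11.CZ.T
  simp only [a0_eq]

open scoped Classical in
lemma totalFn_eq (E K : Type) [Field E] [NumberField E] [Field K] [NumberField K]
    [IsCMField K] : totalFn E K =
      ∑ Φ ∈ Pool.Agent.Q11.CZ.halves (Pool.Agent.Q11.CZ.conj K) (E →ₐ[ℚ] K),
        Pool.Agent.Q11.CZ.T Φ := by
  funext g
  rw [Finset.sum_apply]
  unfold totalFn Pool.Agent.Q11.CZ.halves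
  simp only [heightFn_eq]
  rfl

lemma avgSpan_eq [IsCMField K] : avgSpan K = Pool.Agent.Q11.CZ.avgSpan K := by
  unfold avgSpan Pool.Agent.Q11.CZ.avgSpan
  simp only [totalFn_eq]

/-- **Main result.**  Let `K` be a CM field, Galois over `ℚ`, and `E` a quadratic extension of a
totally real field `F`.  Let `F^c` be the compositum of the conjugates of `F` in `K`.  Then
(a) `A_Φ` is the same function for all CM types `Φ` of `E`, and `avgSpan K` contains `A_Φ` and
`a⁰_{E,ψ,Φ}` for all `Φ` and all `ψ`; or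
(b) there is a proper subfield `L` of `F` such that `ψ(E) F^c = φ(E) F^c` for all embeddings `ψ`, `φ` of
`E` into `K` which agree on `L`. -/
theorem result (K : Type) [Field K] [NumberField K] [IsGalois ℚ K] [IsCMField K]
    (E : Type) [Field E] [NumberField E] (F : IntermediateField ℚ E) [IsTotallyReal F]
    (hE : Module.finrank F E = 2) :
    (∀ Φ : Finset (E →ₐ[ℚ] K), IsCMType Φ →
      (∀ Φ' : Finset (E →ₐ[ℚ] K), IsCMType Φ' → heightFn Φ' = heightFn Φ) ∧
      heightFn Φ ∈ avgSpan K ∧ ∀ ψ, a0 ψ Φ ∈ avgSpan K) ∨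
    ∃ L : IntermediateField ℚ F, L ≠ ⊤ ∧ ∀ ψ φ : E →ₐ[ℚ] K, (∀ x ∈ L, ψ x = φ x) →
      ψ.fieldRange ⊔ conjugates F K = φ.fieldRange ⊔ conjugates F K := by
  have hcl : conjugates F K = Pool.Agent.Helper606_CZ.clos F K := rfl
  by_cases hex : ∃ Φ : Finset (E →ₐ[ℚ] K), IsCMType Φ
  swap
  · left
    intro Φ hΦ
    exact absurd ⟨Φ, hΦ⟩ hex
  obtain ⟨Φ0, hΦ0⟩ := hex
  have hfree : ∀ ψ : E →ₐ[ℚ] K, Pool.Agent.Q11.CZ.conj K • ψ ≠ ψ := by
    intro ψ hψ
    have := isHalf hΦ0 ψ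
    rw [hψ] at this
    tauto
  by_cases hsep : ∀ ψ φ : E →ₐ[ℚ] K, Pool.Agent.Helper606_CZ.rs F ψ ≠ Pool.Agent.Helper606_CZ.rs F φ →
      Pool.Agent.Helper606_CZ.Nn F ψ ≠ Pool.Agent.Helper606_CZ.Nn F φ
  · left
    intro Φ hΦ
    have h5 : ∀ ψ, Pool.Agent.Q11.CZ.a0 ψ Φ ∈ Pool.Agent.Q11.CZ.avgSpan K := fun ψ =>
      Pool.Agent.Helper606_CZ.a0_mem (isHalf hΦ) ψ
        (Pool.Agent.Helper606_CZ.zinv_of_sep F hE hfree hsep (isHalf hΦ) ψ)
    refine ⟨fun Φ' hΦ' => ?_, ?_, fun ψ => ?_⟩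
    · rw [heightFn_eq, heightFn_eq]
      exact Pool.Agent.Helper606_CZ.T_of_sep F hE hfree hsep (isHalf hΦ') (isHalf hΦ)
    · rw [heightFn_eq, avgSpan_eq]
      exact Pool.Agent.Helper606_CZ.T_mem' h5
    · rw [a0_eq, avgSpan_eq]
      exact h5 ψ
  · right
    push Not at hsep
    obtain ⟨u, v, huv, hN⟩ := hsep
    obtain ⟨L, hL, h⟩ := Pool.Agent.Helper606_CZ.exists_sub F hE hfree huv hN
    refine ⟨L, hL, fun ψ φ hψφ => ?_⟩
    rw [hcl]
    exact (Pool.Agent.Helper606_CZ.Nn_iff F ψ φ).mp (h ψ φ hψφ)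

end Pool.Agent.Results.MP_a2beea_nt.ConjugateExtensions
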