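import Pool.Agent.Helper606_CZ.K10

/-!
# Colmez's class functions for CM quadratic extensions of a totally real field with a doubly
# transitive Galois group

`K` is a CM field, Galois over `ℚ`, `c` its complex conjugation.  For a number field `E` the set `H_E` of
its embeddings is the set of its embeddings into `K` (if `K` contains the conjugates of `E`), and
`a⁰_{E,ψ,Φ}` is the class function on `G = Gal(K/ℚ)` of the question, for a CM type `Φ` of `E` and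
`ψ ∈ H_E`.  The Faltings height of an abelian variety of CM type `(E, Φ)` belongs to
`A_Φ = ∑_{ψ ∈ Φ} a⁰_{E,ψ,Φ}`.

By Colmez's theorem both sides of the formula in question are values at `a⁰_{E,ψ,Φ}` of `ℚ`-linear
functions.  The formula is known for `1`, for the sums of the `A_Φ` over all CM types `Φ` of a field
(the averaged formula) and for the `a⁰_{E,ψ,Φ}` of the fields `E` which are abelian over `ℚ`.  Let
`avgSpan` and `abSpan` be the spaces spanned by these functions.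

Let `E` be a quadratic extension of a totally real field `F` of degree at least three.  We show: if the
Galois group permutes the embeddings of `F` triply transitively, then all `a⁰_{E,ψ,Φ}` are in
`avgSpan`.  If it permutes them doubly transitively, the same holds except in two cases, in which
`a⁰_{E,ψ,Φ}` is not in `avgSpan ⊔ abSpan` for any CM type `Φ` of `E` and any `ψ`.
-/

set_option autoImplicit false

open NumberField

namespace Pool.Agent.Results.MP_a2beea_nt.DoublyTransitive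

variable {E K : Type} [Field E] [NumberField E] [Field K] [NumberField K]

/-- The complex conjugation of the CM field `K`, an element of `Gal(K/ℚ)`. -/
noncomputable def conjugation (K : Type) [Field K] [NumberField K] [IsCMField K] : K ≃ₐ[ℚ] K :=
  (IsCMField.complexConj K).restrictScalars ℚ

/-- The action `g ψ = g ∘ ψ` of `Gal(K/ℚ)` on the set of the embeddings of a field into `K`. -/
def act {L : Type} [Field L] [Algebra ℚ L] (g : K ≃ₐ[ℚ] K) (ψ : L →ₐ[ℚ] K) : L →ₐ[ℚ] K :=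
  (g : K →ₐ[ℚ] K).comp ψ

/-- `Φ` is a CM type of `E`: `H_E` is the disjoint union of `Φ` and `c Φ`. -/
def IsCMType [IsCMField K] (Φ : Finset (E →ₐ[ℚ] K)) : Prop :=
  ∀ ψ : E →ₐ[ℚ] K, act (conjugation K) ψ ∈ Φ ↔ ψ ∉ Φ

/-- Colmez's function `a⁰_{E,ψ,Φ}(g) = #{η : η⁻¹ g η ψ ∈ Φ} / #Gal(K/ℚ)`. -/
noncomputable def a0 (ψ : E →ₐ[ℚ] K) (Φ : Finset (E →ₐ[ℚ] K)) (g : K ≃ₐ[ℚ] K) : ℚ :=
  (Nat.card {η : K ≃ₐ[ℚ] K // act (η⁻¹ * g * η) ψ ∈ Φ} : ℚ) / Nat.card (K ≃ₐ[ℚ] K)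

/-- `A_Φ`, the sum of Colmez's functions over the elements of the CM type. -/
noncomputable def heightFn (Φ : Finset (E →ₐ[ℚ] K)) (g : K ≃ₐ[ℚ] K) : ℚ := ∑ ψ ∈ Φ, a0 ψ Φ g

open scoped Classical in
/-- The sum of the `A_Φ` over all CM types of `E`. -/
noncomputable def totalFn (E K : Type) [Field E] [NumberField E] [Field K] [NumberField K]
    [IsCMField K] (g : K ≃ₐ[ℚ] K) : ℚ :=
  ∑ Φ ∈ Finset.univ.filter (fun Φ : Finset (E →ₐ[ℚ] K) => IsCMType Φ), heightFn Φ g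

/-- The span of `1` and the sums of the `A_Φ` over all CM types of a field. -/
noncomputable def avgSpan (K : Type) [Field K] [NumberField K] [IsCMField K] :
    Submodule ℚ ((K ≃ₐ[ℚ] K) → ℚ) :=
  Submodule.span ℚ ({fun _ => 1} ∪ {F | ∃ (E : Type) (_ : Field E) (_ : NumberField E),
    F = totalFn E K})

/-- The span of the functions `a⁰_{E,ψ,Φ}` of the fields `E` which are abelian over `ℚ`. -/
noncomputable def abSpan (K : Type) [Field K] [NumberField K] [IsCMField K] :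
    Submodule ℚ ((K ≃ₐ[ℚ] K) → ℚ) :=
  Submodule.span ℚ {F | ∃ (E : Type) (_ : Field E) (_ : NumberField E), IsAbelianGalois ℚ E ∧
    ∃ (ψ : E →ₐ[ℚ] K) (Φ : Finset (E →ₐ[ℚ] K)), IsCMType Φ ∧ F = a0 ψ Φ}

/-- `Gal(K/ℚ)` permutes the embeddings of `F` into `K` doubly transitively. -/
def IsDoubly (F K : Type) [Field F] [Algebra ℚ F] [Field K] [NumberField K] : Prop :=
  ∀ a b a' b' : F →ₐ[ℚ] K, a ≠ b → a' ≠ b' → ∃ g : K ≃ₐ[ℚ] K, act g a = a' ∧ act g b = b'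

/-- `Gal(K/ℚ)` permutes the embeddings of `F` into `K` triply transitively. -/
def IsTriply (F K : Type) [Field F] [Algebra ℚ F] [Field K] [NumberField K] : Prop :=
  ∀ a b d a' b' d' : F →ₐ[ℚ] K, a ≠ b → a ≠ d → b ≠ d → a' ≠ b' → a' ≠ d' → b' ≠ d' →
    ∃ g : K ≃ₐ[ℚ] K, act g a = a' ∧ act g b = b' ∧ act g d = d'

/-- All `a⁰_{E,ψ,Φ}` of `E` are in the span of `avgSpan K` and `f`. -/
def Generates (E : Type) [Field E] [NumberField E] {K : Type} [Field K] [NumberField K]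
    [IsCMField K] (f : (K ≃ₐ[ℚ] K) → ℚ) : Prop :=
  ∀ Φ : Finset (E →ₐ[ℚ] K), IsCMType Φ → ∀ ψ, a0 ψ Φ ∈ avgSpan K ⊔ Submodule.span ℚ {f}

lemma isHalf [IsCMField K] {Φ : Finset (E →ₐ[ℚ] K)} (hΦ : IsCMType Φ) :
    Pool.Agent.Q11.CZ.IsHalf (Pool.Agent.Q11.CZ.conj K) Φ := hΦ

open scoped Classical in
lemma a0_eq (ψ : E →ₐ[ℚ] K) (Φ : Finset (E →ₐ[ℚ] K)) : a0 ψ Φ = Pool.Agent.Q11.CZ.a0 ψ Φ := by
  funext g
  unfold a0 Pool.Agent.Q11.CZ.a0
  rw [Nat.card_eq_fintype_card, Nat.card_eq_fintype_card, Fintype.card_subtype]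
  rfl

lemma heightFn_eq (Φ : Finset (E →ₐ[ℚ] K)) : heightFn Φ = Pool.Agent.Q11.CZ.T Φ := by
  funext g
  unfold heightFn Pool.Agent.Q11.CZ.T
  simp only [a0_eq]

open scoped Classical in
lemma totalFn_eq (E K : Type) [Field E] [NumberField E] [Field K] [NumberField K]
    [IsCMField K] : totalFn E K =
      ∑ Φ ∈ Pool.Agent.Q11.CZ.halves (Pool.Agent.Q11.CZ.conj K) (E →ₐ[ℚ] K),
        Pool.Agent.Q11.CZ.T Φ := by
  funext g
  rw [Finset.sum_apply]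
  unfold totalFn Pool.Agent.Q11.CZ.halves
  simp only [heightFn_eq]
  rfl

lemma avgSpan_eq [IsCMField K] : avgSpan K = Pool.Agent.Q11.CZ.avgSpan K := by
  unfold avgSpan Pool.Agent.Q11.CZ.avgSpan
  simp only [totalFn_eq]

lemma abSpan_eq [IsCMField K] : abSpan K = Pool.Agent.Q11.CZ.abSpan K := by
  unfold abSpan Pool.Agent.Q11.CZ.abSpan
  simp only [a0_eq]
  rfl

/-- **Main result.**  Let `K` be a CM field, Galois over `ℚ`, and `E` a quadratic extension of a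
totally real field `F` with `n = [F : ℚ] ≥ 3`, such that `Gal(K/ℚ)` permutes the embeddings of `F` into
`K` doubly transitively.  Then one of the following holds:
(a) `avgSpan K` contains `A_Φ` and `a⁰_{E,ψ,Φ}` for all CM types `Φ` of `E` and all `ψ`;
(b) `n ≡ 2 mod 4`, `n - 1` is not a square, the embeddings of `F` are not permuted triply
transitively, and for every CM type `Φ` and every `ψ` neither `A_Φ` nor `a⁰_{E,ψ,Φ}` is in
`avgSpan K ⊔ abSpan K`, but each of them spans with `avgSpan K` all `a⁰_{E,ψ',Φ'}`;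
(c) `4 ∣ n`, the embeddings of `F` are not permuted triply transitively, and for every CM type `Φ`
and every `ψ` the space `avgSpan K` contains `A_Φ`, and `a⁰_{E,ψ,Φ}` is not in
`avgSpan K ⊔ abSpan K`, but spans with `avgSpan K` all `a⁰_{E,ψ',Φ'}`.
In particular (a) holds if `n` is odd and if the embeddings of `F` are permuted triply
transitively, and in all cases the formula for one `a⁰_{E,ψ,Φ}` implies it for all CM types of `E`. -/
theorem result (K : Type) [Field K] [NumberField K] [IsGalois ℚ K] [IsCMField K]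
    (E : Type) [Field E] [NumberField E] (F : IntermediateField ℚ E) [IsTotallyReal F]
    (hE : Module.finrank F E = 2) (hF : 3 ≤ Module.finrank ℚ F) (h2 : IsDoubly F K) :
    (∀ Φ : Finset (E →ₐ[ℚ] K), IsCMType Φ →
      heightFn Φ ∈ avgSpan K ∧ ∀ ψ, a0 ψ Φ ∈ avgSpan K) ∨
    (Module.finrank ℚ F % 4 = 2 ∧ ¬ IsSquare (Module.finrank ℚ F - 1) ∧ ¬ IsTriply F K ∧
      ∀ Φ : Finset (E →ₐ[ℚ] K), IsCMType Φ →
        (heightFn Φ ∉ avgSpan K ⊔ abSpan K ∧ Generates E (heightFn Φ)) ∧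
        ∀ ψ, a0 ψ Φ ∉ avgSpan K ⊔ abSpan K ∧ Generates E (a0 ψ Φ)) ∨
    (Module.finrank ℚ F % 4 = 0 ∧ ¬ IsTriply F K ∧
      ∀ Φ : Finset (E →ₐ[ℚ] K), IsCMType Φ →
        heightFn Φ ∈ avgSpan K ∧
        ∀ ψ, a0 ψ Φ ∉ avgSpan K ⊔ abSpan K ∧ Generates E (a0 ψ Φ)) := by
  by_cases hex : ∃ Φ : Finset (E →ₐ[ℚ] K), IsCMType Φ ∧ Nonempty (E →ₐ[ℚ] K)
  swap
  · by_cases hne : Nonempty (E →ₐ[ℚ] K)
    · left
      intro Φ hΦ
      exact absurd ⟨Φ, hΦ, hne⟩ hex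
    · left
      intro Φ hΦ
      have h0 : ∀ ψ, a0 ψ Φ ∈ avgSpan K := fun ψ => absurd ⟨ψ⟩ hne
      refine ⟨?_, h0⟩
      rw [heightFn_eq, avgSpan_eq]
      exact Pool.Agent.Helper606_CZ.T_mem' (fun ψ => absurd ⟨ψ⟩ hne)
  obtain ⟨Φ0, hΦ0, ⟨ψ0⟩⟩ := hex
  have hfree : ∀ ψ : E →ₐ[ℚ] K, Pool.Agent.Q11.CZ.conj K • ψ ≠ ψ := by
    intro ψ hψ
    have := isHalf hΦ0 ψ
    rw [hψ] at this
    tauto
  have hcard := Pool.Agent.Helper606_CZ.card_emb' F hE ψ0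
  have htt := Pool.Agent.Helper606_CZ.two_trans F hE hfree h2
  have h3 : ¬ Pool.Agent.Helper606_CZ.ThreeTrans (Pool.Agent.Q11.CZ.conj K) (E →ₐ[ℚ] K) →
      ¬ IsTriply F K := fun h h' =>
    h (Pool.Agent.Helper606_CZ.three_trans F hE hfree h')
  have hgenA : ∀ (Φ : Finset (E →ₐ[ℚ] K)) (ψ : E →ₐ[ℚ] K), IsCMType Φ →
      (∀ (ψ' : E →ₐ[ℚ] K) (Φ' : Finset (E →ₐ[ℚ] K)),
        Pool.Agent.Q11.CZ.IsHalf (Pool.Agent.Q11.CZ.conj K) Φ' → ∃ r : ℚ, Pool.Agent.Q11.CZ.ZInv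
          (Pool.Agent.Q11.CZ.a0 ψ' Φ' - r • Pool.Agent.Q11.CZ.a0 ψ Φ : (K ≃ₐ[ℚ] K) → ℚ)) →
      Generates E (K := K) (Pool.Agent.Q11.CZ.a0 ψ Φ) := by
    intro Φ ψ hΦ h Φ' hΦ' ψ'
    obtain ⟨r, hr⟩ := h ψ' Φ' (isHalf hΦ')
    rw [avgSpan_eq, a0_eq]
    exact Pool.Agent.Helper606_CZ.gen_mem (Pool.Agent.Q11.CZ.a0_isClass ψ Φ)
      ⟨1, Pool.Agent.Q11.CZ.a0_add Pool.Agent.Q11.CZ.conj_comm ψ (isHalf hΦ)⟩
      (Pool.Agent.Q11.CZ.a0_isClass ψ' Φ')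
      ⟨1, Pool.Agent.Q11.CZ.a0_add Pool.Agent.Q11.CZ.conj_comm ψ' (isHalf hΦ')⟩ hr
  have hgenT : ∀ Φ : Finset (E →ₐ[ℚ] K), IsCMType Φ →
      (∀ (ψ' : E →ₐ[ℚ] K) (Φ' : Finset (E →ₐ[ℚ] K)),
        Pool.Agent.Q11.CZ.IsHalf (Pool.Agent.Q11.CZ.conj K) Φ' → ∃ r : ℚ, Pool.Agent.Q11.CZ.ZInv
          (Pool.Agent.Q11.CZ.a0 ψ' Φ' - r • Pool.Agent.Q11.CZ.T Φ : (K ≃ₐ[ℚ] K) → ℚ)) →
      Generates E (K := K) (Pool.Agent.Q11.CZ.T Φ) := by
    intro Φ hΦ h Φ' hΦ' ψ'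
    obtain ⟨r, hr⟩ := h ψ' Φ' (isHalf hΦ')
    rw [avgSpan_eq, a0_eq]
    exact Pool.Agent.Helper606_CZ.gen_mem (Pool.Agent.Q11.CZ.T_isClass Φ)
      ⟨Φ.card, Pool.Agent.Q11.CZ.T_add Pool.Agent.Q11.CZ.conj_comm (isHalf hΦ)⟩
      (Pool.Agent.Q11.CZ.a0_isClass ψ' Φ')
      ⟨1, Pool.Agent.Q11.CZ.a0_add Pool.Agent.Q11.CZ.conj_comm ψ' (isHalf hΦ')⟩ hr
  rcases Pool.Agent.Helper606_CZ.main_group (c := Pool.Agent.Q11.CZ.conj K)
    Pool.Agent.Q11.CZ.conj_comm Pool.Agent.Q11.CZ.conj_mul_self inferInstance htt (by omega) with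
    h | ⟨n, hn, h4, hns, hnt, hT, hA⟩ | ⟨n, hn, h4, hnt, hT, hA⟩
  · left
    intro Φ hΦ
    have h5 : ∀ ψ, Pool.Agent.Q11.CZ.a0 ψ Φ ∈ Pool.Agent.Q11.CZ.avgSpan K := fun ψ =>
      Pool.Agent.Helper606_CZ.a0_mem (isHalf hΦ) ψ (h ψ Φ (isHalf hΦ))
    rw [heightFn_eq, avgSpan_eq]
    refine ⟨Pool.Agent.Helper606_CZ.T_mem' h5, fun ψ => ?_⟩
    rw [a0_eq]
    exact h5 ψ
  · right; left
    have hn' : n = Module.finrank ℚ F := by omega
    subst hn'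
    refine ⟨h4, hns, h3 hnt, fun Φ hΦ => ?_⟩
    rw [heightFn_eq, avgSpan_eq, abSpan_eq]
    refine ⟨⟨Pool.Agent.Helper606_CZ.not_mem (hT Φ (isHalf hΦ)).1,
      hgenT Φ hΦ (hT Φ (isHalf hΦ)).2⟩, fun ψ => ?_⟩
    rw [a0_eq]
    exact ⟨Pool.Agent.Helper606_CZ.not_mem (hA ψ Φ (isHalf hΦ)).1,
      hgenA Φ ψ hΦ (hA ψ Φ (isHalf hΦ)).2⟩
  · right; right
    have hn' : n = Module.finrank ℚ F := by omega
    subst hn'
    refine ⟨h4, h3 hnt, fun Φ hΦ => ?_⟩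
    rw [heightFn_eq, avgSpan_eq, abSpan_eq]
    refine ⟨Pool.Agent.Helper606_CZ.T_mem (isHalf hΦ) (hT Φ (isHalf hΦ)), fun ψ => ?_⟩
    rw [a0_eq]
    exact ⟨Pool.Agent.Helper606_CZ.not_mem (hA ψ Φ (isHalf hΦ)).1,
      hgenA Φ ψ hΦ (hA ψ Φ (isHalf hΦ)).2⟩

end Pool.Agent.Results.MP_a2beea_nt.DoublyTransitive
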