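import Pool.Agent.Helper606_CZ.K10
import Pool.Agent.Helper606_CZ.C5

/-!
# Which CM fields have all their functions of Colmez in the span of the known cases

`K` is a CM field, Galois over `ℚ`, `c` its complex conjugation.  For a number field `E` the set `H_E` of
its embeddings is the set of its embeddings into `K` (if `K` contains the conjugates of `E`), and
`a⁰_{E,ψ,Φ}` is the class function on `G = Gal(K/ℚ)` of the question, for a CM type `Φ` of `E` and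
`ψ ∈ H_E`.  The Faltings height of an abelian variety of CM type `(E, Φ)` belongs to
`A_Φ = ∑_{ψ ∈ Φ} a⁰_{E,ψ,Φ}`.

By Colmez's theorem both sides of the formula in question are values at `a⁰_{E,ψ,Φ}` of `ℚ`-linear
functions.  The formula is known for `1`, for the sums of the `A_Φ` over all CM types `Φ` of a field
(the averaged formula) and for the `a⁰_{E,ψ,Φ}` of the fields `E` which are abelian over `ℚ`.  Let
`avgSpan` and `abSpan` be the spaces spanned by these functions.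

For a given field `E` we determine in terms of the irreducible characters `χ` of `G` with
`χ(c) = -χ(1)` which occur in the permutation character of `G` on `H_E` whether all `a⁰_{E,ψ,Φ}`
(or all `A_Φ`) of `E` are in `avgSpan ⊔ abSpan` (or in `avgSpan`).
-/

set_option autoImplicit false

open NumberField

namespace Pool.Agent.Results.MP_a2beea_nt.ExactCriterion

variable {E K : Type} [Field E] [NumberField E] [Field K] [NumberField K]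

/-- The complex conjugation of the CM field `K`, an element of `Gal(K/ℚ)`. -/
noncomputable def conjugation (K : Type) [Field K] [NumberField K] [IsCMField K] : K ≃ₐ[ℚ] K :=
  (IsCMField.complexConj K).restrictScalars ℚ

/-- The action `g ψ = g ∘ ψ` of `Gal(K/ℚ)` on the set of the embeddings of a field into `K`. -/
def act {L : Type} [Field L] [Algebra ℚ L] (g : K ≃ₐ[ℚ] K) (ψ : L →ₐ[ℚ] K) : L →ₐ[ℚ] K :=
  (g : K →ₐ[ℚ] K).comp ψ

/-- `Φ` is a CM type of `E`: `H_E` is the disjoint union of `Φ` and `c Φ`. -/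
def IsCMType [IsCMField K] (Φ : Finset (E →ₐ[ℚ] K)) : Prop :=
  ∀ ψ : E →ₐ[ℚ] K, act (conjugation K) ψ ∈ Φ ↔ ψ ∉ Φ

/-- Colmez's function `a⁰_{E,ψ,Φ}(g) = #{η : η⁻¹ g η ψ ∈ Φ} / #Gal(K/ℚ)`. -/
noncomputable def a0 (ψ : E →ₐ[ℚ] K) (Φ : Finset (E →ₐ[ℚ] K)) (g : K ≃ₐ[ℚ] K) : ℚ :=
  (Nat.card {η : K ≃ₐ[ℚ] K // act (η⁻¹ * g * η) ψ ∈ Φ} : ℚ) / Nat.card (K ≃ₐ[ℚ] K)

/-- `A_Φ`, the sum of Colmez's functions over the elements of the CM type. -/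
noncomputable def heightFn (Φ : Finset (E →ₐ[ℚ] K)) (g : K ≃ₐ[ℚ] K) : ℚ := ∑ ψ ∈ Φ, a0 ψ Φ g

open scoped Classical in
/-- The sum of the `A_Φ` over all CM types of `E`. -/
noncomputable def totalFn (E K : Type) [Field E] [NumberField E] [Field K] [NumberField K]
    [IsCMField K] (g : K ≃ₐ[ℚ] K) : ℚ :=
  ∑ Φ ∈ Finset.univ.filter (fun Φ : Finset (E →ₐ[ℚ] K) => IsCMType Φ), heightFn Φ g

/-- The span of `1` and the sums of the `A_Φ` over all CM types of a field. -/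
noncomputable def avgSpan (K : Type) [Field K] [NumberField K] [IsCMField K] :
    Submodule ℚ ((K ≃ₐ[ℚ] K) → ℚ) :=
  Submodule.span ℚ ({fun _ => 1} ∪ {F | ∃ (E : Type) (_ : Field E) (_ : NumberField E),
    F = totalFn E K})

/-- The span of the functions `a⁰_{E,ψ,Φ}` of the fields `E` which are abelian over `ℚ`. -/
noncomputable def abSpan (K : Type) [Field K] [NumberField K] [IsCMField K] :
    Submodule ℚ ((K ≃ₐ[ℚ] K) → ℚ) :=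
  Submodule.span ℚ {F | ∃ (E : Type) (_ : Field E) (_ : NumberField E), IsAbelianGalois ℚ E ∧
    ∃ (ψ : E →ₐ[ℚ] K) (Φ : Finset (E →ₐ[ℚ] K)), IsCMType Φ ∧ F = a0 ψ Φ}

/-- `χ` is the character of an irreducible complex representation of `G`. -/
def IsIrr {G : Type} [Group G] (χ : G → ℂ) : Prop :=
  ∃ (n : ℕ) (ρ : Representation ℂ G (Fin n → ℂ)), ρ.IsIrreducible ∧ χ = ρ.character

/-- `χ` is an irreducible character of `Gal(K/ℚ)` with `χ(c) = -χ(1)` which occurs in the permutation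
character of `Gal(K/ℚ)` on `H_E`, that is, its scalar product with the function
`g ↦ #{ψ ∈ H_E : g ψ = ψ}` is not zero. -/
def IsOddConstituent (E : Type) [Field E] [NumberField E] {K : Type} [Field K] [NumberField K]
    [IsCMField K] (χ : (K ≃ₐ[ℚ] K) → ℂ) : Prop :=
  IsIrr χ ∧ χ (conjugation K) = - χ 1 ∧
    ∑ g : K ≃ₐ[ℚ] K, χ g * (Nat.card {ψ : E →ₐ[ℚ] K // act g ψ = ψ} : ℂ) ≠ 0

lemma isHalf [IsCMField K] {Φ : Finset (E →ₐ[ℚ] K)} (hΦ : IsCMType Φ) :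
    Pool.Agent.Q11.CZ.IsHalf (Pool.Agent.Q11.CZ.conj K) Φ := hΦ

open scoped Classical in
lemma a0_eq (ψ : E →ₐ[ℚ] K) (Φ : Finset (E →ₐ[ℚ] K)) : a0 ψ Φ = Pool.Agent.Q11.CZ.a0 ψ Φ := by
  funext g
  unfold a0 Pool.Agent.Q11.CZ.a0
  rw [Nat.card_eq_fintype_card, Nat.card_eq_fintype_card, Fintype.card_subtype]
  rfl

lemma heightFn_eq (Φ : Finset (E →ₐ[ℚ] K)) : heightFn Φ = Pool.Agent.Q11.CZ.T Φ := by
  funext g
  unfold heightFn Pool.Agent.Q11.CZ.T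
  simp only [a0_eq]

open scoped Classical in
lemma totalFn_eq (E K : Type) [Field E] [NumberField E] [Field K] [NumberField K]
    [IsCMField K] : totalFn E K =
      ∑ Φ ∈ Pool.Agent.Q11.CZ.halves (Pool.Agent.Q11.CZ.conj K) (E →ₐ[ℚ] K),
        Pool.Agent.Q11.CZ.T Φ := by
  funext g
  rw [Finset.sum_apply]
  unfold totalFn Pool.Agent.Q11.CZ.halves
  simp only [heightFn_eq]
  rfl

lemma avgSpan_eq [IsCMField K] : avgSpan K = Pool.Agent.Q11.CZ.avgSpan K := by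
  unfold avgSpan Pool.Agent.Q11.CZ.avgSpan
  simp only [totalFn_eq]

lemma abSpan_eq [IsCMField K] : abSpan K = Pool.Agent.Q11.CZ.abSpan K := by
  unfold abSpan Pool.Agent.Q11.CZ.abSpan
  simp only [a0_eq]
  rfl

open scoped Classical in
lemma occ_iff [IsGalois ℚ K] [IsCMField K] (ψ0 : E →ₐ[ℚ] K) (χ : (K ≃ₐ[ℚ] K) → ℂ) :
    IsOddConstituent E χ ↔ χ ∈ Pool.Agent.H541R3.ART.Irr (K ≃ₐ[ℚ] K) ∧
      χ (Pool.Agent.Q11.CZ.conj K) = - χ 1 ∧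
      Pool.Agent.Helper606_CZ.Th (MulAction.stabilizer (K ≃ₐ[ℚ] K) ψ0) χ 1 ≠ 0 := by
  have h0 : ∀ g : K ≃ₐ[ℚ] K, (Nat.card {ψ : E →ₐ[ℚ] K // act g ψ = ψ} : ℂ) =
      ((Finset.univ.filter fun ψ : E →ₐ[ℚ] K => g • ψ = ψ).card : ℂ) := by
    intro g
    rw [Nat.card_eq_fintype_card, Fintype.card_subtype]
    rfl
  unfold IsOddConstituent
  simp only [h0]
  constructor
  · rintro ⟨h1, h2, h3⟩
    refine ⟨h1, h2, fun h4 => h3 ?_⟩
    rw [Pool.Agent.Helper606_CZ.th_perm inferInstance ψ0 h1, h4, mul_zero]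
  · rintro ⟨h1, h2, h3⟩
    refine ⟨h1, h2, ?_⟩
    rw [Pool.Agent.Helper606_CZ.th_perm inferInstance ψ0 h1]
    refine mul_ne_zero ?_ h3
    have : 0 < Fintype.card (E →ₐ[ℚ] K) := Fintype.card_pos_iff.mpr ⟨ψ0⟩
    exact_mod_cast this.ne'

/-- **Main result.**  Let `K` be a CM field, Galois over `ℚ`, and `E` a number field.
(1) All `a⁰_{E,ψ,Φ}` of `E` are in `avgSpan K ⊔ abSpan K` if and only if all odd constituents `χ` of the
permutation character of `E` with `χ(1) ≠ 1` have rational values.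
(2) All `A_Φ` of `E` are in `avgSpan K ⊔ abSpan K` if and only if the real parts of the values of all
odd constituents `χ` with `χ(1) ≠ 1` are rational.
(3), (4) The same for `avgSpan K` in place of `avgSpan K ⊔ abSpan K`, without the condition
`χ(1) ≠ 1`. -/
theorem result (K : Type) [Field K] [NumberField K] [IsGalois ℚ K] [IsCMField K]
    (E : Type) [Field E] [NumberField E] :
    ((∀ Φ : Finset (E →ₐ[ℚ] K), IsCMType Φ → ∀ ψ, a0 ψ Φ ∈ avgSpan K ⊔ abSpan K) ↔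
      ∀ χ : (K ≃ₐ[ℚ] K) → ℂ, IsOddConstituent E χ → χ 1 ≠ 1 → ∀ g, ∃ q : ℚ, χ g = q) ∧
    ((∀ Φ : Finset (E →ₐ[ℚ] K), IsCMType Φ → heightFn Φ ∈ avgSpan K ⊔ abSpan K) ↔
      ∀ χ : (K ≃ₐ[ℚ] K) → ℂ, IsOddConstituent E χ → χ 1 ≠ 1 → ∀ g, ∃ q : ℚ, (χ g).re = q) ∧
    ((∀ Φ : Finset (E →ₐ[ℚ] K), IsCMType Φ → ∀ ψ, a0 ψ Φ ∈ avgSpan K) ↔
      ∀ χ : (K ≃ₐ[ℚ] K) → ℂ, IsOddConstituent E χ → ∀ g, ∃ q : ℚ, χ g = q) ∧
    ((∀ Φ : Finset (E →ₐ[ℚ] K), IsCMType Φ → heightFn Φ ∈ avgSpan K) ↔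
      ∀ χ : (K ≃ₐ[ℚ] K) → ℂ, IsOddConstituent E χ → ∀ g, ∃ q : ℚ, (χ g).re = q) := by
  classical
  by_cases hne : Nonempty (E →ₐ[ℚ] K)
  swap
  · -- there are no embeddings
    have hno : ∀ χ : (K ≃ₐ[ℚ] K) → ℂ, ¬ IsOddConstituent E χ := by
      rintro χ ⟨-, -, h⟩
      apply h
      refine Finset.sum_eq_zero fun g _ => ?_
      have : IsEmpty {ψ : E →ₐ[ℚ] K // act g ψ = ψ} := ⟨fun ψ => hne ⟨ψ.1⟩⟩
      rw [Nat.card_of_isEmpty, Nat.cast_zero, mul_zero]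
    have hT : ∀ Φ : Finset (E →ₐ[ℚ] K), heightFn Φ ∈ avgSpan K := by
      intro Φ
      rw [heightFn_eq, avgSpan_eq]
      exact Pool.Agent.Helper606_CZ.T_mem' (fun ψ => absurd ⟨ψ⟩ hne)
    refine ⟨⟨fun _ χ h => absurd h (hno χ), fun _ Φ _ ψ => absurd ⟨ψ⟩ hne⟩,
      ⟨fun _ χ h => absurd h (hno χ), fun _ Φ _ => Submodule.mem_sup_left (hT Φ)⟩,
      ⟨fun _ χ h => absurd h (hno χ), fun _ Φ _ ψ => absurd ⟨ψ⟩ hne⟩,
      ⟨fun _ χ h => absurd h (hno χ), fun _ Φ _ => hT Φ⟩⟩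
  obtain ⟨ψ0⟩ := hne
  by_cases hex : ∃ Φ : Finset (E →ₐ[ℚ] K), IsCMType Φ
  swap
  · -- there are no CM types
    have hfix : ∃ ψ1 : E →ₐ[ℚ] K, Pool.Agent.Q11.CZ.conj K • ψ1 = ψ1 := by
      by_contra hcon
      push Not at hcon
      obtain ⟨Φ, hΦ⟩ := Pool.Agent.Q11.CZ.exists_half (X := E →ₐ[ℚ] K)
        Pool.Agent.Q11.CZ.conj_mul_self hcon
      exact hex ⟨Φ, (Pool.Agent.Q11.CZ.mem_halves Φ).mp hΦ⟩
    obtain ⟨ψ1, hψ1⟩ := hfix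
    have hno : ∀ χ : (K ≃ₐ[ℚ] K) → ℂ, ¬ IsOddConstituent E χ := by
      intro χ h
      rw [occ_iff ψ1] at h
      obtain ⟨h1, h2, h3⟩ := h
      rw [Pool.Agent.Helper606_CZ.odd_iff Pool.Agent.Q11.CZ.conj_comm
        Pool.Agent.Q11.CZ.conj_mul_self h1] at h2
      apply h3
      rw [Pool.Agent.Helper606_CZ.th_one]
      have h4 : ∑ h : MulAction.stabilizer (K ≃ₐ[ℚ] K) ψ1, χ (h : K ≃ₐ[ℚ] K) =
          ∑ h : MulAction.stabilizer (K ≃ₐ[ℚ] K) ψ1, - χ (h : K ≃ₐ[ℚ] K) := by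
        refine Fintype.sum_equiv (Equiv.mulLeft
          (⟨Pool.Agent.Q11.CZ.conj K, hψ1⟩ : MulAction.stabilizer (K ≃ₐ[ℚ] K) ψ1)) _ _ fun h => ?_
        simp only [Equiv.coe_mulLeft, Subgroup.coe_mul]
        rw [h2, neg_neg]
      rw [Finset.sum_neg_distrib] at h4
      exact self_eq_neg.mp h4
    refine ⟨⟨fun _ χ h => absurd h (hno χ), fun _ Φ hΦ => absurd ⟨Φ, hΦ⟩ hex⟩,
      ⟨fun _ χ h => absurd h (hno χ), fun _ Φ hΦ => absurd ⟨Φ, hΦ⟩ hex⟩,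
      ⟨fun _ χ h => absurd h (hno χ), fun _ Φ hΦ => absurd ⟨Φ, hΦ⟩ hex⟩,
      ⟨fun _ χ h => absurd h (hno χ), fun _ Φ hΦ => absurd ⟨Φ, hΦ⟩ hex⟩⟩
  have hc := Pool.Agent.Q11.CZ.conj_comm (K := K)
  have hc2 := Pool.Agent.Q11.CZ.conj_mul_self (K := K)
  have hex' : ∃ Φ : Finset (E →ₐ[ℚ] K), Pool.Agent.Q11.CZ.IsHalf (Pool.Agent.Q11.CZ.conj K) Φ := hex
  have k1 := Pool.Agent.Helper606_CZ.crit_a0_t hc hc2 inferInstance hex' ψ0
  have k2 := Pool.Agent.Helper606_CZ.crit_T_t hc hc2 inferInstance hex' ψ0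
  have k3 := Pool.Agent.Helper606_CZ.crit_a0_z hc hc2 inferInstance hex' ψ0
  have k4 := Pool.Agent.Helper606_CZ.crit_T_z hc hc2 inferInstance hex' ψ0
  rw [avgSpan_eq, abSpan_eq]
  simp only [occ_iff ψ0, heightFn_eq, a0_eq]
  refine ⟨⟨fun h χ hχ hχ1 => ?_, fun h Φ hΦ ψ => ?_⟩, ⟨fun h χ hχ hχ1 => ?_, fun h Φ hΦ => ?_⟩,
    ⟨fun h χ hχ => ?_, fun h Φ hΦ ψ => ?_⟩, ⟨fun h χ hχ => ?_, fun h Φ hΦ => ?_⟩⟩
  · exact k1.mp (fun x Φ hΦ => ((Pool.Agent.Q11.CZ.mem_sup_iff _).mp (h Φ hΦ x)).2.2) χ hχ.1 hχ1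
      hχ.2.1 hχ.2.2
  · refine (Pool.Agent.Q11.CZ.mem_sup_iff _).mpr ⟨Pool.Agent.Q11.CZ.a0_isClass ψ Φ,
      ⟨1, Pool.Agent.Q11.CZ.a0_add hc ψ (isHalf hΦ)⟩, ?_⟩
    exact k1.mpr (fun χ h1 h2 h3 h4 => h χ ⟨h1, h3, h4⟩ h2) ψ Φ (isHalf hΦ)
  · exact k2.mp (fun Φ hΦ => ((Pool.Agent.Q11.CZ.mem_sup_iff _).mp (h Φ hΦ)).2.2) χ hχ.1 hχ1
      hχ.2.1 hχ.2.2
  · refine (Pool.Agent.Q11.CZ.mem_sup_iff _).mpr ⟨Pool.Agent.Q11.CZ.T_isClass Φ,
      ⟨Φ.card, Pool.Agent.Q11.CZ.T_add hc (isHalf hΦ)⟩, ?_⟩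
    exact k2.mpr (fun χ h1 h2 h3 h4 => h χ ⟨h1, h3, h4⟩ h2) Φ (isHalf hΦ)
  · exact k3.mp (fun x Φ hΦ => ((Pool.Agent.Q11.CZ.mem_avgSpan_iff _).mp (h Φ hΦ x)).2.2) χ hχ.1
      hχ.2.1 hχ.2.2
  · exact Pool.Agent.Helper606_CZ.a0_mem (isHalf hΦ) ψ
      (k3.mpr (fun χ h1 h3 h4 => h χ ⟨h1, h3, h4⟩) ψ Φ (isHalf hΦ))
  · exact k4.mp (fun Φ hΦ => ((Pool.Agent.Q11.CZ.mem_avgSpan_iff _).mp (h Φ hΦ)).2.2) χ hχ.1
      hχ.2.1 hχ.2.2
  · exact Pool.Agent.Helper606_CZ.T_mem (isHalf hΦ)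
      (k4.mpr (fun χ h1 h3 h4 => h χ ⟨h1, h3, h4⟩) Φ (isHalf hΦ))

end Pool.Agent.Results.MP_a2beea_nt.ExactCriterion
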