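import Pool.Agent.Helper606_PD.F

/-!
# CM fields of degree `2 p`

`K` is a CM field, Galois over `ℚ`, `c` its complex conjugation.  For a number field `E` the set `H_E` of
its embeddings is the set of its embeddings into `K` (if `K` contains the conjugates of `E`), and
`a⁰_{E,ψ,Φ}` is the class function on `G = Gal(K/ℚ)` of the question, for a CM type `Φ` of `E` and
`ψ ∈ H_E`.  The Faltings height of an abelian variety of CM type `(E, Φ)` belongs to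
`A_Φ = ∑_{ψ ∈ Φ} a⁰_{E,ψ,Φ}`.

By Colmez's theorem both sides of the formula in question are values at `a⁰_{E,ψ,Φ}` of `ℚ`-linear
functions.  The formula is known for `1`, for the sums of the `A_Φ` over all CM types `Φ` of a field
(the averaged formula) and for the `a⁰_{E,ψ,Φ}` of the fields `E` which are abelian over `ℚ`.  Let
`avgSpan` and `abSpan` be the spaces spanned by these functions.

Let `E` be a quadratic extension of a totally real field `F` whose degree is an odd prime number.  We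
show that all `a⁰_{E,ψ,Φ}` of `E` are in `avgSpan ⊔ abSpan` if and only if `E` contains no imaginary
quadratic field or `F` is Galois over `ℚ` or `Gal(K/ℚ)` is doubly transitive on the embeddings of `F`,
and we give similar criteria for the `A_Φ` of `E` and for `avgSpan` in place of `avgSpan ⊔ abSpan`.
-/

set_option autoImplicit false

open NumberField

namespace Pool.Agent.Results.MP_a2beea_nt.PrimeDegree

variable {E K : Type} [Field E] [NumberField E] [Field K] [NumberField K]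

/-- The complex conjugation of the CM field `K`, an element of `Gal(K/ℚ)`. -/
noncomputable def conjugation (K : Type) [Field K] [NumberField K] [IsCMField K] : K ≃ₐ[ℚ] K :=
  (IsCMField.complexConj K).restrictScalars ℚ

/-- The action `g ψ = g ∘ ψ` of `Gal(K/ℚ)` on the set of the embeddings of a field into `K`. -/
def act {L : Type} [Field L] [Algebra ℚ L] (g : K ≃ₐ[ℚ] K) (ψ : L →ₐ[ℚ] K) : L →ₐ[ℚ] K :=
  (g : K →ₐ[ℚ] K).comp ψ

/-- `Φ` is a CM type of `E`: `H_E` is the disjoint union of `Φ` and `c Φ`. -/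
def IsCMType [IsCMField K] (Φ : Finset (E →ₐ[ℚ] K)) : Prop :=
  ∀ ψ : E →ₐ[ℚ] K, act (conjugation K) ψ ∈ Φ ↔ ψ ∉ Φ

/-- Colmez's function `a⁰_{E,ψ,Φ}(g) = #{η : η⁻¹ g η ψ ∈ Φ} / #Gal(K/ℚ)`. -/
noncomputable def a0 (ψ : E →ₐ[ℚ] K) (Φ : Finset (E →ₐ[ℚ] K)) (g : K ≃ₐ[ℚ] K) : ℚ :=
  (Nat.card {η : K ≃ₐ[ℚ] K // act (η⁻¹ * g * η) ψ ∈ Φ} : ℚ) / Nat.card (K ≃ₐ[ℚ] K)

/-- `A_Φ`, the sum of Colmez's functions over the elements of the CM type. -/
noncomputable def heightFn (Φ : Finset (E →ₐ[ℚ] K)) (g : K ≃ₐ[ℚ] K) : ℚ := ∑ ψ ∈ Φ, a0 ψ Φ g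

open scoped Classical in
/-- The sum of the `A_Φ` over all CM types of `E`. -/
noncomputable def totalFn (E K : Type) [Field E] [NumberField E] [Field K] [NumberField K]
    [IsCMField K] (g : K ≃ₐ[ℚ] K) : ℚ :=
  ∑ Φ ∈ Finset.univ.filter (fun Φ : Finset (E →ₐ[ℚ] K) => IsCMType Φ), heightFn Φ g

/-- The span of `1` and the sums of the `A_Φ` over all CM types of a field. -/
noncomputable def avgSpan (K : Type) [Field K] [NumberField K] [IsCMField K] :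
    Submodule ℚ ((K ≃ₐ[ℚ] K) → ℚ) :=
  Submodule.span ℚ ({fun _ => 1} ∪ {F | ∃ (E : Type) (_ : Field E) (_ : NumberField E),
    F = totalFn E K})

/-- The span of the functions `a⁰_{E,ψ,Φ}` of the fields `E` which are abelian over `ℚ`. -/
noncomputable def abSpan (K : Type) [Field K] [NumberField K] [IsCMField K] :
    Submodule ℚ ((K ≃ₐ[ℚ] K) → ℚ) :=
  Submodule.span ℚ {F | ∃ (E : Type) (_ : Field E) (_ : NumberField E), IsAbelianGalois ℚ E ∧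
    ∃ (ψ : E →ₐ[ℚ] K) (Φ : Finset (E →ₐ[ℚ] K)), IsCMType Φ ∧ F = a0 ψ Φ}

lemma isHalf [IsCMField K] {Φ : Finset (E →ₐ[ℚ] K)} (hΦ : IsCMType Φ) :
    Pool.Agent.Q11.CZ.IsHalf (Pool.Agent.Q11.CZ.conj K) Φ := hΦ

open scoped Classical in
lemma a0_eq (ψ : E →ₐ[ℚ] K) (Φ : Finset (E →ₐ[ℚ] K)) : a0 ψ Φ = Pool.Agent.Q11.CZ.a0 ψ Φ := by
  funext g
  unfold a0 Pool.Agent.Q11.CZ.a0
  rw [Nat.card_eq_fintype_card, Nat.card_eq_fintype_card, Fintype.card_subtype]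
  rfl

lemma heightFn_eq (Φ : Finset (E →ₐ[ℚ] K)) : heightFn Φ = Pool.Agent.Q11.CZ.T Φ := by
  funext g
  unfold heightFn Pool.Agent.Q11.CZ.T
  simp only [a0_eq]

open scoped Classical in
lemma totalFn_eq (E K : Type) [Field E] [NumberField E] [Field K] [NumberField K]
    [IsCMField K] : totalFn E K =
      ∑ Φ ∈ Pool.Agent.Q11.CZ.halves (Pool.Agent.Q11.CZ.conj K) (E →ₐ[ℚ] K),
        Pool.Agent.Q11.CZ.T Φ := by
  funext g
  rw [Finset.sum_apply]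
  unfold totalFn Pool.Agent.Q11.CZ.halves
  simp only [heightFn_eq]
  rfl

lemma avgSpan_eq [IsCMField K] : avgSpan K = Pool.Agent.Q11.CZ.avgSpan K := by
  unfold avgSpan Pool.Agent.Q11.CZ.avgSpan
  simp only [totalFn_eq]

lemma abSpan_eq [IsCMField K] : abSpan K = Pool.Agent.Q11.CZ.abSpan K := by
  unfold abSpan Pool.Agent.Q11.CZ.abSpan
  simp only [a0_eq]
  rfl

/-- `E` contains an imaginary quadratic field, that is, a square root of a negative rational number. -/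
def HasImaginaryQuadratic (E : Type) [Field E] [NumberField E] : Prop :=
  ∃ (x : E) (q : ℚ), q < 0 ∧ x ^ 2 = algebraMap ℚ E q

/-- `Gal(K/ℚ)` is transitive on the pairs of distinct embeddings of `F` into `K`. -/
def IsDoublyTransitive (F K : Type) [Field F] [NumberField F] [Field K] [NumberField K] : Prop :=
  ∀ a b a' b' : F →ₐ[ℚ] K, a ≠ b → a' ≠ b' → ∃ g : K ≃ₐ[ℚ] K, act g a = a' ∧ act g b = b'

/-- `Gal(K/ℚ)` is transitive on the sets of two distinct embeddings of `F` into `K`. -/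
def IsTwoHomogeneous (F K : Type) [Field F] [NumberField F] [Field K] [NumberField K] : Prop :=
  ∀ a b a' b' : F →ₐ[ℚ] K, a ≠ b → a' ≠ b' → ∃ g : K ≃ₐ[ℚ] K,
    (act g a = a' ∧ act g b = b') ∨ (act g a = b' ∧ act g b = a')

/-- **Main result.**  Let `K` be a CM field, Galois over `ℚ`, and `E` a number field which has an
embedding into `K` and is a quadratic extension of a totally real field `F` of odd prime degree.
(1) All `a⁰_{E,ψ,Φ}` of `E` are in `avgSpan K ⊔ abSpan K` if and only if `E` contains no imaginary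
quadratic field or `F` is Galois over `ℚ` or `Gal(K/ℚ)` is doubly transitive on the embeddings of `F`.
(2) All `A_Φ` of `E` are in `avgSpan K ⊔ abSpan K` if and only if `E` contains no imaginary quadratic
field or `F` is Galois over `ℚ` or `Gal(K/ℚ)` is transitive on the sets of two embeddings of `F`.
(3), (4) The same for `avgSpan K` in place of `avgSpan K ⊔ abSpan K`, without the alternative that `F`
is Galois over `ℚ`. -/
theorem result (K : Type) [Field K] [NumberField K] [IsGalois ℚ K] [IsCMField K]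
    (E : Type) [Field E] [NumberField E] (hne : Nonempty (E →ₐ[ℚ] K))
    (F : IntermediateField ℚ E) [IsTotallyReal F] (hE : Module.finrank F E = 2)
    (hp : (Module.finrank ℚ F).Prime) (h2 : Module.finrank ℚ F ≠ 2) :
    ((∀ Φ : Finset (E →ₐ[ℚ] K), IsCMType Φ → ∀ ψ, a0 ψ Φ ∈ avgSpan K ⊔ abSpan K) ↔
      (HasImaginaryQuadratic E → IsGalois ℚ F ∨ IsDoublyTransitive F K)) ∧
    ((∀ Φ : Finset (E →ₐ[ℚ] K), IsCMType Φ → heightFn Φ ∈ avgSpan K ⊔ abSpan K) ↔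
      (HasImaginaryQuadratic E → IsGalois ℚ F ∨ IsTwoHomogeneous F K)) ∧
    ((∀ Φ : Finset (E →ₐ[ℚ] K), IsCMType Φ → ∀ ψ, a0 ψ Φ ∈ avgSpan K) ↔
      (HasImaginaryQuadratic E → IsDoublyTransitive F K)) ∧
    ((∀ Φ : Finset (E →ₐ[ℚ] K), IsCMType Φ → heightFn Φ ∈ avgSpan K) ↔
      (HasImaginaryQuadratic E → IsTwoHomogeneous F K)) := by
  classical
  obtain ⟨ψ0⟩ := hne
  by_cases hfree : ∀ ψ : E →ₐ[ℚ] K, Pool.Agent.Q11.CZ.conj K • ψ ≠ ψ
  swap
  · -- there are no CM types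
    push Not at hfree
    obtain ⟨ψ1, hψ1⟩ := hfree
    have hno : ∀ Φ : Finset (E →ₐ[ℚ] K), ¬ IsCMType Φ := by
      intro Φ hΦ
      have h1 : Pool.Agent.Q11.CZ.conj K • ψ1 ∈ Φ ↔ ψ1 ∉ Φ := hΦ ψ1
      rw [hψ1] at h1
      tauto
    have hq : ¬ HasImaginaryQuadratic E := by
      rintro ⟨x, q, hq, hx⟩
      exact (Pool.Agent.Helper606_PD.sign_of_sqrt ψ1 hq hx).1 ψ1 hψ1
    exact ⟨⟨fun _ h => absurd h hq, fun _ Φ hΦ => absurd hΦ (hno Φ)⟩,
      ⟨fun _ h => absurd h hq, fun _ Φ hΦ => absurd hΦ (hno Φ)⟩,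
      ⟨fun _ h => absurd h hq, fun _ Φ hΦ => absurd hΦ (hno Φ)⟩,
      ⟨fun _ h => absurd h hq, fun _ Φ hΦ => absurd hΦ (hno Φ)⟩⟩
  have hc := Pool.Agent.Q11.CZ.conj_comm (K := K)
  have hc2 := Pool.Agent.Q11.CZ.conj_mul_self (K := K)
  obtain ⟨Φ0, hΦ0⟩ := Pool.Agent.Q11.CZ.exists_half (X := E →ₐ[ℚ] K) hc2 hfree
  have hex : ∃ Φ : Finset (E →ₐ[ℚ] K), Pool.Agent.Q11.CZ.IsHalf (Pool.Agent.Q11.CZ.conj K) Φ :=
    ⟨Φ0, (Pool.Agent.Q11.CZ.mem_halves Φ0).mp hΦ0⟩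
  have hpf : Fact (Module.finrank ℚ F).Prime := ⟨hp⟩
  have h3 : 3 ≤ Module.finrank ℚ F := by
    have := hp.two_le
    omega
  have hcard : Fintype.card (E →ₐ[ℚ] K) = 2 * Module.finrank ℚ F :=
    Pool.Agent.Helper606_CZ.card_emb' F hE ψ0
  have htr : MulAction.IsPretransitive (K ≃ₐ[ℚ] K) (E →ₐ[ℚ] K) := inferInstance
  have hsame := Pool.Agent.Helper606_PD.same_iff (K := K) F hE hfree
  have hact : ∀ (g : K ≃ₐ[ℚ] K) (ψ φ : E →ₐ[ℚ] K),
      Pool.Agent.Helper606_PD.Same (Pool.Agent.Q11.CZ.conj K) (g • ψ) φ ↔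
        act g (Pool.Agent.Helper606_CZ.rs F ψ) = Pool.Agent.Helper606_CZ.rs F φ := fun g ψ φ =>
    hsame (g • ψ) φ
  have hsurj := Pool.Agent.Helper606_CZ.rs_surj (K := K) F ψ0
  -- the two spaces
  have k1 : (∀ Φ : Finset (E →ₐ[ℚ] K), IsCMType Φ → ∀ ψ, a0 ψ Φ ∈ avgSpan K ⊔ abSpan K) ↔
      ∀ x y : E →ₐ[ℚ] K, (fun g => (Pool.Agent.Helper606_CZ.Dd (Pool.Agent.Q11.CZ.conj K) x y g : ℚ)) ∈
        Pool.Agent.Helper606_CZ.VT (K ≃ₐ[ℚ] K) := by
    rw [← Pool.Agent.Helper606_CZ.mem_iff_dd hc hc2 (Pool.Agent.Helper606_CZ.VT (K ≃ₐ[ℚ] K))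
      (Pool.Agent.Helper606_CZ.VZ_le Pool.Agent.Helper606_CZ.one_VZ) hex, avgSpan_eq, abSpan_eq]
    simp only [a0_eq]
    constructor
    · intro h x Φ hΦ
      exact ((Pool.Agent.Q11.CZ.mem_sup_iff _).mp (h Φ hΦ x)).2.2
    · intro h Φ hΦ ψ
      exact (Pool.Agent.Q11.CZ.mem_sup_iff _).mpr ⟨Pool.Agent.Q11.CZ.a0_isClass ψ Φ,
        ⟨1, Pool.Agent.Q11.CZ.a0_add hc ψ (isHalf hΦ)⟩, h ψ Φ (isHalf hΦ)⟩
  have k2 : (∀ Φ : Finset (E →ₐ[ℚ] K), IsCMType Φ → heightFn Φ ∈ avgSpan K ⊔ abSpan K) ↔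
      ∀ x y : E →ₐ[ℚ] K, (fun g => (Pool.Agent.Helper606_CZ.Dd (Pool.Agent.Q11.CZ.conj K) x y g : ℚ) +
        (Pool.Agent.Helper606_CZ.Dd (Pool.Agent.Q11.CZ.conj K) y x g : ℚ)) ∈
        Pool.Agent.Helper606_CZ.VT (K ≃ₐ[ℚ] K) := by
    rw [← Pool.Agent.Helper606_CZ.T_mem_iff_dd hc hc2 (Pool.Agent.Helper606_CZ.VT (K ≃ₐ[ℚ] K))
      (Pool.Agent.Helper606_CZ.VZ_le Pool.Agent.Helper606_CZ.one_VZ) hex
      (fun x => Pool.Agent.Helper606_CZ.VZ_le (Pool.Agent.Helper606_CZ.self_VZ hc hc2 htr x)),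
      avgSpan_eq, abSpan_eq]
    simp only [heightFn_eq]
    constructor
    · intro h Φ hΦ
      exact ((Pool.Agent.Q11.CZ.mem_sup_iff _).mp (h Φ hΦ)).2.2
    · intro h Φ hΦ
      exact (Pool.Agent.Q11.CZ.mem_sup_iff _).mpr ⟨Pool.Agent.Q11.CZ.T_isClass Φ,
        ⟨Φ.card, Pool.Agent.Q11.CZ.T_add hc (isHalf hΦ)⟩, h Φ (isHalf hΦ)⟩
  have k3 : (∀ Φ : Finset (E →ₐ[ℚ] K), IsCMType Φ → ∀ ψ, a0 ψ Φ ∈ avgSpan K) ↔
      ∀ x y : E →ₐ[ℚ] K, (fun g => (Pool.Agent.Helper606_CZ.Dd (Pool.Agent.Q11.CZ.conj K) x y g : ℚ)) ∈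
        Pool.Agent.Helper606_CZ.VZ (K ≃ₐ[ℚ] K) := by
    rw [← Pool.Agent.Helper606_CZ.mem_iff_dd hc hc2 (Pool.Agent.Helper606_CZ.VZ (K ≃ₐ[ℚ] K))
      Pool.Agent.Helper606_CZ.one_VZ hex, avgSpan_eq]
    simp only [a0_eq]
    constructor
    · intro h x Φ hΦ
      exact ((Pool.Agent.Q11.CZ.mem_avgSpan_iff _).mp (h Φ hΦ x)).2.2
    · intro h Φ hΦ ψ
      exact Pool.Agent.Helper606_CZ.a0_mem (isHalf hΦ) ψ (h ψ Φ (isHalf hΦ))
  have k4 : (∀ Φ : Finset (E →ₐ[ℚ] K), IsCMType Φ → heightFn Φ ∈ avgSpan K) ↔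
      ∀ x y : E →ₐ[ℚ] K, (fun g => (Pool.Agent.Helper606_CZ.Dd (Pool.Agent.Q11.CZ.conj K) x y g : ℚ) +
        (Pool.Agent.Helper606_CZ.Dd (Pool.Agent.Q11.CZ.conj K) y x g : ℚ)) ∈
        Pool.Agent.Helper606_CZ.VZ (K ≃ₐ[ℚ] K) := by
    rw [← Pool.Agent.Helper606_CZ.T_mem_iff_dd hc hc2 (Pool.Agent.Helper606_CZ.VZ (K ≃ₐ[ℚ] K))
      Pool.Agent.Helper606_CZ.one_VZ hex
      (fun x => Pool.Agent.Helper606_CZ.self_VZ hc hc2 htr x), avgSpan_eq]
    simp only [heightFn_eq]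
    constructor
    · intro h Φ hΦ
      exact ((Pool.Agent.Q11.CZ.mem_avgSpan_iff _).mp (h Φ hΦ)).2.2
    · intro h Φ hΦ
      exact Pool.Agent.Helper606_CZ.T_mem (isHalf hΦ) (h Φ (isHalf hΦ))
  rw [k1, k2, k3, k4]
  -- transitivity on the pairs of embeddings of `F`
  have t1 : IsDoublyTransitive F K ↔ ∀ x y x' y' : E →ₐ[ℚ] K,
      ¬ Pool.Agent.Helper606_PD.Same (Pool.Agent.Q11.CZ.conj K) x y →
      ¬ Pool.Agent.Helper606_PD.Same (Pool.Agent.Q11.CZ.conj K) x' y' → ∃ g : K ≃ₐ[ℚ] K,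
        Pool.Agent.Helper606_PD.Same (Pool.Agent.Q11.CZ.conj K) (g • x) x' ∧
        Pool.Agent.Helper606_PD.Same (Pool.Agent.Q11.CZ.conj K) (g • y) y' := by
    constructor
    · intro hT x y x' y' hab hab'
      rw [hsame] at hab hab'
      obtain ⟨g, hg1, hg2⟩ := hT _ _ _ _ hab hab'
      exact ⟨g, (hact _ _ _).mpr hg1, (hact _ _ _).mpr hg2⟩
    · intro hT a b a' b' hab hab'
      obtain ⟨a, rfl⟩ := hsurj a
      obtain ⟨b, rfl⟩ := hsurj b
      obtain ⟨a', rfl⟩ := hsurj a'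
      obtain ⟨b', rfl⟩ := hsurj b'
      obtain ⟨g, hg1, hg2⟩ := hT a b a' b' (fun e => hab ((hsame _ _).mp e))
        (fun e => hab' ((hsame _ _).mp e))
      exact ⟨g, (hact _ _ _).mp hg1, (hact _ _ _).mp hg2⟩
  have t2 : IsTwoHomogeneous F K ↔ ∀ x y x' y' : E →ₐ[ℚ] K,
      ¬ Pool.Agent.Helper606_PD.Same (Pool.Agent.Q11.CZ.conj K) x y →
      ¬ Pool.Agent.Helper606_PD.Same (Pool.Agent.Q11.CZ.conj K) x' y' → ∃ g : K ≃ₐ[ℚ] K,
        (Pool.Agent.Helper606_PD.Same (Pool.Agent.Q11.CZ.conj K) (g • x) x' ∧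
        Pool.Agent.Helper606_PD.Same (Pool.Agent.Q11.CZ.conj K) (g • y) y') ∨
        (Pool.Agent.Helper606_PD.Same (Pool.Agent.Q11.CZ.conj K) (g • x) y' ∧
        Pool.Agent.Helper606_PD.Same (Pool.Agent.Q11.CZ.conj K) (g • y) x') := by
    constructor
    · intro hT x y x' y' hab hab'
      rw [hsame] at hab hab'
      obtain ⟨g, hg⟩ := hT _ _ _ _ hab hab'
      refine ⟨g, ?_⟩
      rcases hg with ⟨hg1, hg2⟩ | ⟨hg1, hg2⟩
      · exact Or.inl ⟨(hact _ _ _).mpr hg1, (hact _ _ _).mpr hg2⟩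
      · exact Or.inr ⟨(hact _ _ _).mpr hg1, (hact _ _ _).mpr hg2⟩
    · intro hT a b a' b' hab hab'
      obtain ⟨a, rfl⟩ := hsurj a
      obtain ⟨b, rfl⟩ := hsurj b
      obtain ⟨a', rfl⟩ := hsurj a'
      obtain ⟨b', rfl⟩ := hsurj b'
      obtain ⟨g, hg⟩ := hT a b a' b' (fun e => hab ((hsame _ _).mp e))
        (fun e => hab' ((hsame _ _).mp e))
      refine ⟨g, ?_⟩
      rcases hg with ⟨hg1, hg2⟩ | ⟨hg1, hg2⟩
      · exact Or.inl ⟨(hact _ _ _).mp hg1, (hact _ _ _).mp hg2⟩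
      · exact Or.inr ⟨(hact _ _ _).mp hg1, (hact _ _ _).mp hg2⟩
  -- the Galois case
  have hgal : IsGalois ℚ F → ∀ (g : K ≃ₐ[ℚ] K) (x y : E →ₐ[ℚ] K),
      Pool.Agent.Helper606_PD.Same (Pool.Agent.Q11.CZ.conj K) (g • x) x →
      Pool.Agent.Helper606_PD.Same (Pool.Agent.Q11.CZ.conj K) (g • y) y := by
    intro hG g x y h
    rw [hact] at h ⊢
    exact Pool.Agent.Helper606_PD.gal_fix F g _ _ h
  have hgal' : ¬ IsGalois ℚ F → ∃ (g : K ≃ₐ[ℚ] K) (x y : E →ₐ[ℚ] K),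
      Pool.Agent.Helper606_PD.Same (Pool.Agent.Q11.CZ.conj K) (g • x) x ∧
      ¬ Pool.Agent.Helper606_PD.Same (Pool.Agent.Q11.CZ.conj K) (g • y) y := by
    intro hG
    by_contra hcon
    push Not at hcon
    apply hG
    refine Pool.Agent.Helper606_PD.gal_of_fix (K := K) F (Pool.Agent.Helper606_CZ.rs F ψ0) ?_
    intro g b b' hb
    obtain ⟨φ, rfl⟩ := hsurj b
    obtain ⟨φ', rfl⟩ := hsurj b'
    have h1 := hcon g φ φ' ((hact g φ φ).mpr hb)
    rw [hact] at h1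
    exact h1
  by_cases hs : ∃ w : (E →ₐ[ℚ] K) → ℤ, Pool.Agent.Helper606_PD.SignFn (Pool.Agent.Q11.CZ.conj K) w
  swap
  · -- no imaginary quadratic subfield
    have hq : ¬ HasImaginaryQuadratic E := by
      rintro ⟨x, q, hq, hx⟩
      exact hs (Pool.Agent.Helper606_PD.sign_of_sqrt ψ0 hq hx).2
    have h1 := Pool.Agent.Helper606_PD.no_sign hc hc2 hfree h2 hcard htr hs
    exact ⟨⟨fun _ h => absurd h hq, fun _ x y => Pool.Agent.Helper606_CZ.VZ_le (h1 x y)⟩,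
      ⟨fun _ h => absurd h hq, fun _ x y => Submodule.add_mem _
        (Pool.Agent.Helper606_CZ.VZ_le (h1 x y)) (Pool.Agent.Helper606_CZ.VZ_le (h1 y x))⟩,
      ⟨fun _ h => absurd h hq, fun _ x y => h1 x y⟩,
      ⟨fun _ h => absurd h hq, fun _ x y => Submodule.add_mem _ (h1 x y) (h1 y x)⟩⟩
  obtain ⟨w, hw⟩ := hs
  have hq : HasImaginaryQuadratic E := Pool.Agent.Helper606_PD.sqrt_of_sign ψ0 hw
  refine ⟨⟨fun h _ => ?_, fun h => ?_⟩, ⟨fun h _ => ?_, fun h => ?_⟩,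
    ⟨fun h _ => ?_, fun h => ?_⟩, ⟨fun h _ => ?_, fun h => ?_⟩⟩
  · by_cases hG : IsGalois ℚ F
    · exact Or.inl hG
    · refine Or.inr (t1.mpr ?_)
      obtain ⟨g0, x1, y1, hx1, hy1⟩ := hgal' hG
      exact Pool.Agent.Helper606_PD.conv_one hc hc2 hfree h2 hcard htr hw hx1 hy1 h
  · rcases h hq with hG | hT
    · exact Pool.Agent.Helper606_PD.gal_VT hc hc2 hfree h2 hcard htr hw (hgal hG)
    · intro x y
      exact Pool.Agent.Helper606_CZ.VZ_le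
        (Pool.Agent.Helper606_PD.two_VZ hc hc2 hfree h3 hcard htr hw (t1.mp hT) x y)
  · by_cases hG : IsGalois ℚ F
    · exact Or.inl hG
    · refine Or.inr (t2.mpr ?_)
      obtain ⟨g0, x1, y1, hx1, hy1⟩ := hgal' hG
      exact Pool.Agent.Helper606_PD.conv_two hc hc2 hfree h2 hcard htr hw hx1 hy1 h
  · rcases h hq with hG | hT
    · intro x y
      exact Submodule.add_mem _
        (Pool.Agent.Helper606_PD.gal_VT hc hc2 hfree h2 hcard htr hw (hgal hG) x y)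
        (Pool.Agent.Helper606_PD.gal_VT hc hc2 hfree h2 hcard htr hw (hgal hG) y x)
    · intro x y
      exact Pool.Agent.Helper606_CZ.VZ_le
        (Pool.Agent.Helper606_PD.two_VZ' hc hc2 hfree h3 hcard htr hw (t2.mp hT) x y)
  · exact t1.mpr (Pool.Agent.Helper606_PD.conv_one' hc hc2 hfree h2 hcard htr hw ψ0 h)
  · exact Pool.Agent.Helper606_PD.two_VZ hc hc2 hfree h3 hcard htr hw (t1.mp (h hq))
  · exact t2.mpr (Pool.Agent.Helper606_PD.conv_two' hc hc2 hfree h2 hcard htr hw ψ0 h)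
  · exact Pool.Agent.Helper606_PD.two_VZ' hc hc2 hfree h3 hcard htr hw (t2.mp (h hq))

end Pool.Agent.Results.MP_a2beea_nt.PrimeDegree
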